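import Mathlib

set_option autoImplicit false

namespace Pool.Agent.MP_61df98_mp.H93

set_option maxRecDepth 100000 in
theorem det15 {R : Type} [CommRing R] (a b e x : R) (h1 : a ^ 2 + b ^ 2 = 0)
    (h2 : b ^ 4 + 2 * a * b + b ^ 2 = 0) (h3 : e ^ 2 = 0) :
    Matrix.det !![a - x, 1, 0, 0, 0, 0, 0, 0, 0, 0, 0, 0, 0, 0, 1;
      1, b - x, 1, 0, 0, 0, 0, 0, 0, 0, 0, 0, 0, 0, 0;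
      0, 1, e - x, 1, 0, 0, 0, 0, 0, 0, 0, 0, 0, 0, 0;
      0, 0, 1, -b - x, 1, 0, 0, 0, 0, 0, 0, 0, 0, 0, 0;
      0, 0, 0, 1, -a - x, 1, 0, 0, 0, 0, 0, 0, 0, 0, 0;
      0, 0, 0, 0, 1, a - x, 1, 0, 0, 0, 0, 0, 0, 0, 0;
      0, 0, 0, 0, 0, 1, b - x, 1, 0, 0, 0, 0, 0, 0, 0;
      0, 0, 0, 0, 0, 0, 1, 0 - x, 1, 0, 0, 0, 0, 0, 0;
      0, 0, 0, 0, 0, 0, 0, 1, -b - x, 1, 0, 0, 0, 0, 0;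
      0, 0, 0, 0, 0, 0, 0, 0, 1, -a - x, 1, 0, 0, 0, 0;
      0, 0, 0, 0, 0, 0, 0, 0, 0, 1, a - x, 1, 0, 0, 0;
      0, 0, 0, 0, 0, 0, 0, 0, 0, 0, 1, b - x, 1, 0, 0;
      0, 0, 0, 0, 0, 0, 0, 0, 0, 0, 0, 1, -e - x, 1, 0;
      0, 0, 0, 0, 0, 0, 0, 0, 0, 0, 0, 0, 1, -b - x, 1;
      1, 0, 0, 0, 0, 0, 0, 0, 0, 0, 0, 0, 0, 1, -a - x] =
    Matrix.det !![0 - x, 1, 0, 0, 0, 0, 0, 0, 0, 0, 0, 0, 0, 0, 1;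
      1, 0 - x, 1, 0, 0, 0, 0, 0, 0, 0, 0, 0, 0, 0, 0;
      0, 1, 0 - x, 1, 0, 0, 0, 0, 0, 0, 0, 0, 0, 0, 0;
      0, 0, 1, 0 - x, 1, 0, 0, 0, 0, 0, 0, 0, 0, 0, 0;
      0, 0, 0, 1, 0 - x, 1, 0, 0, 0, 0, 0, 0, 0, 0, 0;
      0, 0, 0, 0, 1, 0 - x, 1, 0, 0, 0, 0, 0, 0, 0, 0;
      0, 0, 0, 0, 0, 1, 0 - x, 1, 0, 0, 0, 0, 0, 0, 0;
      0, 0, 0, 0, 0, 0, 1, 0 - x, 1, 0, 0, 0, 0, 0, 0;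
      0, 0, 0, 0, 0, 0, 0, 1, 0 - x, 1, 0, 0, 0, 0, 0;
      0, 0, 0, 0, 0, 0, 0, 0, 1, 0 - x, 1, 0, 0, 0, 0;
      0, 0, 0, 0, 0, 0, 0, 0, 0, 1, 0 - x, 1, 0, 0, 0;
      0, 0, 0, 0, 0, 0, 0, 0, 0, 0, 1, 0 - x, 1, 0, 0;
      0, 0, 0, 0, 0, 0, 0, 0, 0, 0, 0, 1, 0 - x, 1, 0;
      0, 0, 0, 0, 0, 0, 0, 0, 0, 0, 0, 0, 1, 0 - x, 1;
      1, 0, 0, 0, 0, 0, 0, 0, 0, 0, 0, 0, 0, 1, 0 - x] := by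
  eval_det
  linear_combination (6*x - 153*x^3 + 375*x^5 - 360*x^7 + 165*x^9 - 36*x^11 + 3*x^13 + 2*e^2*x - 23*e^2*x^3 +
      68*e^2*x^5 - 65*e^2*x^7 + 24*e^2*x^9 - 3*e^2*x^11 + 3*b^2*x - 75*b^2*x^3 + 180*b^2*x^5 -
      150*b^2*x^7 + 51*b^2*x^9 - 6*b^2*x^11 + 15*b^2*e^2*x - 72*b^2*e^2*x^3 + 86*b^2*e^2*x^5 -
      39*b^2*e^2*x^7 + 6*b^2*e^2*x^9 + 32*b^4*x^3 - 27*b^4*x^5 + 3*b^4*x^7 + b^4*x^9 +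
      8*b^4*e^2*x - 13*b^4*e^2*x^3 + 5*b^4*e^2*x^5 - b^4*e^2*x^7 + 16*b^6*x^3 - 15*b^6*x^5 +
      3*b^6*x^7 - 12*b^6*e^2*x + 11*b^6*e^2*x^3 - 3*b^6*e^2*x^5 - 3*b^8*x^3 - b^8*e^2*x -
      b^10*x^3 + b^10*e^2*x + 120*a*b*x^3 - 180*a*b*x^5 + 84*a*b*x^7 - 12*a*b*x^9 - 8*a*b*e^2*x
      + 52*a*b*e^2*x^3 - 52*a*b*e^2*x^5 + 12*a*b*e^2*x^7 + 68*a*b^3*x^3 - 72*a*b^3*x^5 +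
      18*a*b^3*x^7 - 44*a*b^3*e^2*x + 56*a*b^3*e^2*x^3 - 18*a*b^3*e^2*x^5 - 12*a*b^5*x^3 -
      4*a*b^5*e^2*x - 6*a*b^7*x^3 + 6*a*b^7*e^2*x - 60*a^2*x^3 + 120*a^2*x^5 - 87*a^2*x^7 +
      27*a^2*x^9 - 3*a^2*x^11 - 4*a^2*e^2*x^3 + 19*a^2*e^2*x^5 - 15*a^2*e^2*x^7 + 3*a^2*e^2*x^9
      - 88*a^2*b^2*x^3 + 114*a^2*b^2*x^5 - 51*a^2*b^2*x^7 + 8*a^2*b^2*x^9 + 12*a^2*b^2*e^2*x -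
      42*a^2*b^2*e^2*x^3 + 31*a^2*b^2*e^2*x^5 - 8*a^2*b^2*e^2*x^7 - 27*a^2*b^4*x^3 +
      21*a^2*b^4*x^5 - 6*a^2*b^4*x^7 + 23*a^2*b^4*e^2*x - 17*a^2*b^4*e^2*x^3 + 6*a^2*b^4*e^2*x^5
      + 3*a^2*b^6*x^3 + a^2*b^6*e^2*x + a^2*b^8*x^3 - a^2*b^8*e^2*x + 24*a^3*b*x^3 -
      24*a^3*b*x^5 + 6*a^3*b*x^7 + 8*a^3*b*e^2*x^3 - 6*a^3*b*e^2*x^5 + 24*a^3*b^3*x^3 -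
      12*a^3*b^3*x^5 - 8*a^3*b^3*e^2*x + 12*a^3*b^3*e^2*x^3 + 6*a^3*b^5*x^3 - 6*a^3*b^5*e^2*x -
      8*a^4*x^3 + 12*a^4*x^5 - 6*a^4*x^7 + a^4*x^9 + 2*a^4*e^2*x^5 - a^4*e^2*x^7 -
      12*a^4*b^2*x^3 + 12*a^4*b^2*x^5 - 3*a^4*b^2*x^7 - 4*a^4*b^2*e^2*x^3 + 3*a^4*b^2*e^2*x^5 -
      6*a^4*b^4*x^3 + 3*a^4*b^4*x^5 + 2*a^4*b^4*e^2*x - 3*a^4*b^4*e^2*x^3 - a^4*b^6*x^3 +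
      a^4*b^6*e^2*x) * h1 + (0 - 3*x + 75*x^3 - 150*x^5 + 105*x^7 - 30*x^9 + 3*x^11 + 9*e^2*x + 26*e^2*x^3 - 49*e^2*x^5
      + 22*e^2*x^7 - 3*e^2*x^9 - 15*b^2*x^3 + 15*b^2*x^5 - 3*b^2*x^7 - 17*b^2*e^2*x +
      21*b^2*e^2*x^3 - 5*b^2*e^2*x^5 - 18*b^4*x^3 + 15*b^4*x^5 - 3*b^4*x^7 + 10*b^4*e^2*x -
      11*b^4*e^2*x^3 + 3*b^4*e^2*x^5 + 2*b^6*x^3 + 2*b^6*e^2*x + b^8*x^3 - b^8*e^2*x -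
      30*a*b*x^3 + 30*a*b*x^5 - 6*a*b*x^7 + 14*a*b*e^2*x - 22*a*b*e^2*x^3 + 6*a*b*e^2*x^5 +
      4*a*b^3*x^3 + 4*a*b^3*e^2*x + 4*a*b^5*x^3 - 4*a*b^5*e^2*x) * h2 + (5*x - 35*x^3 + 86*x^5 - 91*x^7 + 46*x^9 - 11*x^11 + x^13 - 60*b^2*x^3 + 80*b^2*x^5 -
      32*b^2*x^7 + 4*b^2*x^9 - 40*a*b*x + 40*a*b*x^3 - 8*a*b*x^5) * h3

end Pool.Agent.MP_61df98_mp.H93
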